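import Pool.Agent.helper51.PC.Spec

/-!
# Project pc (MP_74cfa5_ag), row pc:EXK: the extension of a discrete valuation to `K`
-/

set_option autoImplicit false

namespace Pool.Agent.PC

open MvPolynomial

universe u

section val

variable {K : Type u} [Field K] {v : K → ℤ}

theorem EXK_one (hv : DVal v) : v 1 = 0 := by
  have h := hv.mul 1 1 one_ne_zero one_ne_zero
  rw [one_mul] at h
  omega

theorem EXK_inv (hv : DVal v) (x : K) (hx : x ≠ 0) : v x⁻¹ = - v x := by
  have h := hv.mul x x⁻¹ hx (inv_ne_zero hx)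
  rw [mul_inv_cancel₀ hx, EXK_one hv] at h
  omega

theorem EXK_pow (hv : DVal v) (x : K) (hx : x ≠ 0) (n : ℕ) : v (x ^ n) = n * v x := by
  induction n with
  | zero => rw [pow_zero, EXK_one hv]; simp
  | succ n ih =>
    rw [pow_succ, hv.mul _ _ (pow_ne_zero n hx) hx, ih]
    push_cast
    ring

theorem EXK_neg1 (hv : DVal v) : v (-1) = 0 := by
  have h := hv.mul (-1) (-1) (neg_ne_zero.mpr one_ne_zero) (neg_ne_zero.mpr one_ne_zero)
  rw [neg_mul_neg, one_mul, EXK_one hv] at h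
  omega

theorem EXK_neg (hv : DVal v) {r : ℤ} {x : K} (h : Ge v r x) : Ge v r (-x) := by
  rcases h with h | h
  · left
    rw [h, neg_zero]
  · by_cases hx : x = 0
    · left
      rw [hx, neg_zero]
    · right
      rw [← neg_one_mul, hv.mul _ _ (neg_ne_zero.mpr one_ne_zero) hx, EXK_neg1 hv]
      omega

theorem EXK_add (hv : DVal v) {r : ℤ} {x y : K} (hx : Ge v r x) (hy : Ge v r y) : Ge v r (x + y) := by
  by_cases h0 : x = 0
  · rw [h0, zero_add]
    exact hy
  by_cases h1 : y = 0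
  · rw [h1, add_zero]
    exact hx
  by_cases h2 : x + y = 0
  · exact Or.inl h2
  · right
    have h3 := hv.add x y h0 h1 h2
    rcases hx with h | h
    · exact absurd h h0
    rcases hy with h' | h'
    · exact absurd h' h1
    exact (le_min h h').trans h3

theorem EXK_sum (hv : DVal v) {r : ℤ} (n : ℕ) (f : ℕ → K) (h : ∀ i < n, Ge v r (f i)) :
    Ge v r (∑ i ∈ Finset.range n, f i) := by
  induction n with
  | zero =>
    left
    exact Finset.sum_range_zero f
  | succ n ih =>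
    rw [Finset.sum_range_succ]
    exact EXK_add hv (ih fun i hi => h i (by omega)) (h n (by omega))

/-- integral elements have nonnegative values -/
theorem EXK_int (hv : DVal v) (P : Polynomial K) (hP : P.Monic) (hc : ∀ i, Ge v 0 (P.coeff i)) (y : K)
    (hy : P.eval y = 0) : Ge v 0 y := by
  by_contra hne
  have hy0 : y ≠ 0 := fun h => hne (Or.inl h)
  have hvy : v y < 0 := by
    by_contra h
    exact hne (Or.inr (not_lt.mp h))
  rw [Polynomial.eval_eq_sum_range, Finset.sum_range_succ] at hy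
  have h1 : P.coeff P.natDegree = 1 := hP.coeff_natDegree
  rw [h1, one_mul] at hy
  have h2 : y ^ P.natDegree = -(∑ i ∈ Finset.range P.natDegree, P.coeff i * y ^ i) :=
    eq_neg_of_add_eq_zero_right hy
  have h3 : Ge v (((P.natDegree : ℤ) - 1) * v y) (∑ i ∈ Finset.range P.natDegree, P.coeff i * y ^ i) := by
    apply EXK_sum hv
    intro i hi
    by_cases hci : P.coeff i = 0
    · left
      rw [hci, zero_mul]
    · right
      rw [hv.mul _ _ hci (pow_ne_zero i hy0), EXK_pow hv y hy0]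
      have h4 : 0 ≤ v (P.coeff i) := by
        rcases hc i with h | h
        · exact absurd h hci
        · exact h
      have h5 : (i : ℤ) ≤ (P.natDegree : ℤ) - 1 := by omega
      nlinarith
  have h4 := EXK_neg hv h3
  rw [← h2] at h4
  rcases h4 with h | h
  · exact pow_ne_zero _ hy0 h
  · rw [EXK_pow hv y hy0] at h
    nlinarith

/-- a uniformiser of the fixed field -/
theorem EXK_unif (s : K →+* K) (hv : DVal v) (h : ∃ x, x ≠ 0 ∧ s x = x ∧ 0 < v x) : ∃ w, IsUF s v w := by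
  classical
  have hex : ∃ m : ℕ, 0 < m ∧ ∃ x, x ≠ 0 ∧ s x = x ∧ v x = m := by
    obtain ⟨x, hx0, hx1, hx2⟩ := h
    exact ⟨(v x).toNat, by omega, x, hx0, hx1, by omega⟩
  obtain ⟨hm, w, hw0, hw1, hw2⟩ := Nat.find_spec hex
  have hmin : ∀ m' : ℕ, 0 < m' → (∃ x, x ≠ 0 ∧ s x = x ∧ v x = m') → Nat.find hex ≤ m' :=
    fun m' h1 h2 => Nat.find_min' hex ⟨h1, h2⟩
  obtain ⟨m, hmd⟩ : ∃ m : ℕ, m = Nat.find hex := ⟨_, rfl⟩
  rw [← hmd] at hm hw2
  refine ⟨w, hw0, hw1, by omega, ?_⟩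
  intro x hx0 hx1
  rw [hw2]
  -- division with remainder
  have hr0 : 0 ≤ v x % (m : ℤ) := Int.emod_nonneg _ (by omega)
  have hr1 : v x % (m : ℤ) < m := Int.emod_lt_of_pos _ (by omega)
  have hdiv : v x = (m : ℤ) * (v x / (m : ℤ)) + v x % (m : ℤ) := (Int.mul_ediv_add_emod _ _).symm
  obtain ⟨q, hq⟩ : ∃ q : ℤ, q = v x / (m : ℤ) := ⟨_, rfl⟩
  rw [← hq] at hdiv
  have hzp : ∀ q : ℤ, w ^ q ≠ 0 ∧ s (w ^ q) = w ^ q ∧ v (w ^ q) = q * m := by
    intro q
    refine ⟨zpow_ne_zero q hw0, by rw [map_zpow₀, hw1], ?_⟩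
    rcases Int.eq_nat_or_neg q with ⟨j, rfl | rfl⟩
    · rw [zpow_natCast, EXK_pow hv w hw0, hw2]
    · rw [zpow_neg, zpow_natCast, EXK_inv hv _ (pow_ne_zero j hw0), EXK_pow hv w hw0, hw2]
      ring
  obtain ⟨h1, h2, h3⟩ := hzp (-q)
  have h4 : v (x * w ^ (-q)) = v x % (m : ℤ) := by
    rw [hv.mul _ _ hx0 h1, h3]
    linarith
  by_cases hr : v x % (m : ℤ) = 0
  · exact Int.dvd_of_emod_eq_zero hr
  · exfalso
    have h5 := hmin (v x % (m : ℤ)).toNat (by omega) ⟨x * w ^ (-q), mul_ne_zero hx0 h1, by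
      rw [map_mul, hx1, h2], by rw [h4]; omega⟩
    omega

end val

theorem EXK_io {k : Type u} [Field k] (n d : ℕ) (r : RR k n d) :
    io k n d (algebraMap (RR k n d) (FF k n d) r) = algebraMap (AA k n) (KK k n) (r : AA k n) := by
  unfold io
  rw [IsFractionRing.liftAlgHom_apply]
  exact IsFractionRing.lift_algebraMap _ _

theorem EXK (hSGK : SGK_stmt.{u}) (hFGI : FGI_stmt.{u}) (hFIX : FIX_stmt.{u}) (hEXT : EXT_stmt.{u})
    (hSEP : SEP_stmt.{u}) : EXK_stmt.{u} := by
  intro k _ n d p hN hp s hs O hO hR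
  have hfix := hFIX k n d p hN (hSGK k n d p hN hp).1 s hs
  obtain ⟨-, hint⟩ := hFGI k n d p hN hp
  obtain ⟨hfd, hsep⟩ := hSEP k n d p hN hp
  letI : Algebra (FF k n d) (KK k n) := (io k n d).toRingHom.toAlgebra
  have halg : ∀ x : FF k n d, algebraMap (FF k n d) (KK k n) x = io k n d x := fun _ => rfl
  obtain ⟨v, hv, h1, ⟨x1, hx1, hx1v⟩, h3⟩ := hEXT (FF k n d) (KK k n) O hO
  have hOF : ∀ x : FF k n d, x ∈ O → io k n d x ∈ OF s v := fun x hx =>
    ⟨(hfix _).mpr ⟨x, rfl⟩, (h1 x).mp hx⟩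
  have hIS : ∀ b : KK k n, (∃ P : Polynomial (FF k n d), P.Monic ∧ (∀ i, P.coeff i ∈ O) ∧
      Polynomial.aeval b P = 0) → IntS s v b := by
    rintro b ⟨P, hP1, hP2, hP3⟩
    refine ⟨P.map (algebraMap (FF k n d) (KK k n)), hP1.map _, ?_, ?_⟩
    · intro i
      rw [Polynomial.coeff_map]
      exact hOF _ (hP2 i)
    · rw [Polynomial.eval_map_algebraMap]
      exact hP3
  refine ⟨v, hv, h1, ?_, ?_, ?_, ?_⟩
  · exact EXK_unif s hv ⟨io k n d x1, (map_ne_zero _).mpr hx1, (hfix _).mpr ⟨x1, rfl⟩, hx1v⟩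
  · intro y hy
    obtain ⟨b, c, hb, hc, h4, h5, h6⟩ := h3 y hy
    exact ⟨b, c, hIS b hb, hIS c hc, h4, h5, h6⟩
  · intro i
    obtain ⟨P, hP1, hP2⟩ := hint.isIntegral (X i : AA k n)
    apply EXK_int hv (P.map ((algebraMap (AA k n) (KK k n)).comp (algebraMap (RR k n d) (AA k n)))) (hP1.map _)
    · intro j
      rw [Polynomial.coeff_map, RingHom.comp_apply]
      have h5 : algebraMap (AA k n) (KK k n) (algebraMap (RR k n d) (AA k n) (P.coeff j)) =
          io k n d (algebraMap (RR k n d) (FF k n d) (P.coeff j)) := (EXK_io n d (P.coeff j)).symm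
      rw [h5]
      exact (h1 _).mp (hR _)
    · unfold xx
      rw [Polynomial.eval_map, ← Polynomial.hom_eval₂, hP2, map_zero]
  · intro c hc
    have hcO : ∀ c : k, Ge v 0 (algebraMap k (KK k n) c) := by
      intro c
      have h5 : algebraMap k (KK k n) c = io k n d (algebraMap (RR k n d) (FF k n d) (algebraMap k (RR k n d) c)) := by
        rw [← IsScalarTower.algebraMap_apply, AlgHom.commutes]
      rw [h5]
      exact (h1 _).mp (hR _)
    have hc0 : algebraMap k (KK k n) c ≠ 0 := (map_ne_zero _).mpr hc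
    have h6 : 0 ≤ v (algebraMap k (KK k n) c) := by
      rcases hcO c with h | h
      · exact absurd h hc0
      · exact h
    have h7 : 0 ≤ v (algebraMap k (KK k n) c⁻¹) := by
      rcases hcO c⁻¹ with h | h
      · rw [map_inv₀] at h
        exact absurd h (inv_ne_zero hc0)
      · exact h
    rw [map_inv₀, EXK_inv hv _ hc0] at h7
    omega

end Pool.Agent.PC
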