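import Pool.Agent.helper27.PC.Stmt

/-!
# PC project, module CNT: number of pairs of words with the same end
-/

namespace Pool.Agent.helper27.PC

open Module Polynomial

/-- the place one step back -/
def CNT_dn (l : Lab) : Lab := (l.1, l.2 - 1)

/-- beads that can move one place back -/
def CNT_rem (S : St) : Finset Lab := S.filter fun l => 1 ≤ l.2 ∧ CNT_dn l ∉ S

/-- move the bead at `l` back -/
def CNT_unm (S : St) (l : Lab) : St := insert (CNT_dn l) (S.erase l)

theorem CNT_dn_up (l : Lab) : CNT_dn (up 1 l) = l := by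
  unfold CNT_dn up
  simp

theorem CNT_up_dn (l : Lab) (h : 1 ≤ l.2) : up 1 (CNT_dn l) = l := by
  unfold CNT_dn up
  ext
  · rfl
  · show l.2 - 1 + 1 = l.2
    omega

theorem CNT_up_ne (l : Lab) : up 1 l ≠ l := by
  intro h
  have := congrArg Prod.snd h
  simp [up] at this

theorem CNT_mem_add {S : St} {l : Lab} : l ∈ addable 1 S ↔ l ∈ S ∧ up 1 l ∉ S := by
  unfold addable
  rw [Finset.mem_filter]

theorem CNT_mem_rem {S : St} {l : Lab} : l ∈ CNT_rem S ↔ l ∈ S ∧ 1 ≤ l.2 ∧ CNT_dn l ∉ S := by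
  unfold CNT_rem
  rw [Finset.mem_filter]

theorem CNT_rem_move (S : St) (l : Lab) (hl : l ∈ addable 1 S) :
    CNT_rem (move 1 S l) =
      insert (up 1 l) ((CNT_rem S).filter fun l' => l' ≠ l ∧ CNT_dn l' ≠ up 1 l) := by
  rw [CNT_mem_add] at hl
  obtain ⟨h1, h2⟩ := hl
  ext x
  rw [CNT_mem_rem, Finset.mem_insert, Finset.mem_filter, CNT_mem_rem]
  unfold move
  simp only [Finset.mem_insert, Finset.mem_erase]
  constructor
  · rintro ⟨h3 | ⟨h3, h4⟩, h5, h6⟩
    · exact Or.inl h3
    · right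
      push Not at h6
      refine ⟨⟨h4, h5, fun h7 => ?_⟩, h3, h6.1⟩
      by_cases h8 : CNT_dn x = l
      · have h9 := CNT_up_dn x h5
        rw [h8] at h9
        rw [h9] at h2
        exact h2 h4
      · exact h6.2 h8 h7
  · rintro (h3 | ⟨⟨h3, h4, h5⟩, h6, h7⟩)
    · subst h3
      refine ⟨Or.inl rfl, by simp [up], ?_⟩
      rw [CNT_dn_up]
      rintro (h | ⟨h, -⟩)
      · exact CNT_up_ne l h.symm
      · exact h rfl
    · refine ⟨Or.inr ⟨h6, h3⟩, h4, ?_⟩
      rintro (h | ⟨-, h⟩)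
      · exact h7 h
      · exact h5 h

theorem CNT_add_unm (S : St) (l : Lab) (hl : l ∈ CNT_rem S) :
    addable 1 (CNT_unm S l) =
      insert (CNT_dn l) ((addable 1 S).filter fun l' => l ≠ l' ∧ CNT_dn l ≠ up 1 l') := by
  rw [CNT_mem_rem] at hl
  obtain ⟨h1, h2, h3⟩ := hl
  ext x
  rw [CNT_mem_add, Finset.mem_insert, Finset.mem_filter, CNT_mem_add]
  unfold CNT_unm
  simp only [Finset.mem_insert, Finset.mem_erase]
  constructor
  · rintro ⟨h4 | ⟨h4, h5⟩, h6⟩
    · exact Or.inl h4
    · by_cases h7 : up 1 x = l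
      · left
        rw [← h7, CNT_dn_up]
      · right
        push Not at h6
        exact ⟨⟨h5, fun h8 => h6.2 h7 h8⟩, fun h => h4 h.symm, fun h => h6.1 h.symm⟩
  · rintro (h4 | ⟨⟨h4, h5⟩, h6, h7⟩)
    · subst h4
      refine ⟨Or.inl rfl, ?_⟩
      rw [CNT_up_dn l h2]
      rintro (h | ⟨h, -⟩)
      · rw [← h] at h3
        exact h3 h1
      · exact h rfl
    · refine ⟨Or.inr ⟨fun h => h6 h.symm, h4⟩, ?_⟩
      rintro (h | ⟨-, h⟩)
      · exact h7 h.symm
      · exact h5 h

theorem CNT_unm_move_same (S : St) (l : Lab) (hl : l ∈ addable 1 S) :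
    CNT_unm (move 1 S l) (up 1 l) = S := by
  rw [CNT_mem_add] at hl
  obtain ⟨h1, h2⟩ := hl
  unfold CNT_unm move
  rw [CNT_dn_up, Finset.erase_insert, Finset.insert_erase h1]
  intro h
  exact h2 (Finset.mem_of_mem_erase h)

theorem CNT_move_unm_same (S : St) (l : Lab) (hl : l ∈ CNT_rem S) :
    move 1 (CNT_unm S l) (CNT_dn l) = S := by
  rw [CNT_mem_rem] at hl
  obtain ⟨h1, h2, h3⟩ := hl
  unfold CNT_unm move
  rw [CNT_up_dn l h2, Finset.erase_insert, Finset.insert_erase h1]
  intro h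
  exact h3 (Finset.mem_of_mem_erase h)

theorem CNT_comm_states (S : St) (l l' : Lab) (hl : l ∈ addable 1 S) (hl' : l' ∈ CNT_rem S) :
    CNT_unm (move 1 S l) l' = move 1 (CNT_unm S l') l := by
  rw [CNT_mem_add] at hl
  rw [CNT_mem_rem] at hl'
  obtain ⟨h1, h2⟩ := hl
  obtain ⟨h3, h4, h5⟩ := hl'
  have h6 : up 1 l ≠ l' := fun h => h2 (h ▸ h3)
  have h7 : CNT_dn l' ≠ l := fun h => h5 (h ▸ h1)
  unfold CNT_unm move
  rw [Finset.erase_insert_of_ne h6, Finset.erase_insert_of_ne h7, Finset.insert_comm,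
    Finset.erase_right_comm]

/-- number of beads at the place `0` -/
def CNT_z (S : St) : ℕ := (S.filter fun l => l.2 = 0).card

theorem CNT_card (S : St) : (addable 1 S).card = (CNT_rem S).card + CNT_z S := by
  have h1 : (addable 1 S).card + (S.filter fun l => up 1 l ∈ S).card = S.card := by
    have := Finset.card_filter_add_card_filter_not (s := S) (fun l => up 1 l ∈ S)
    unfold addable
    omega
  have h2 : (CNT_rem S).card + (S.filter fun l => 1 ≤ l.2 ∧ CNT_dn l ∈ S).card + CNT_z S =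
      S.card := by
    have h3 := Finset.card_filter_add_card_filter_not (s := S) (fun l => l.2 = 0)
    have h4 := Finset.card_filter_add_card_filter_not (s := S.filter fun l => ¬ l.2 = 0)
      (fun l => CNT_dn l ∈ S)
    rw [Finset.filter_filter, Finset.filter_filter] at h4
    have h5 : (S.filter fun l => 1 ≤ l.2 ∧ CNT_dn l ∈ S) =
        (S.filter fun l => ¬ l.2 = 0 ∧ CNT_dn l ∈ S) :=
      Finset.filter_congr fun l _ => by rw [Nat.one_le_iff_ne_zero]
    have h6 : CNT_rem S = (S.filter fun l => ¬ l.2 = 0 ∧ ¬ CNT_dn l ∈ S) :=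
      Finset.filter_congr fun l _ => by rw [Nat.one_le_iff_ne_zero]
    rw [h5, h6]
    unfold CNT_z
    omega
  have h3 : (S.filter fun l => up 1 l ∈ S).card =
      (S.filter fun l => 1 ≤ l.2 ∧ CNT_dn l ∈ S).card := by
    refine Finset.card_bij (fun l _ => up 1 l) ?_ ?_ ?_
    · intro l hl
      rw [Finset.mem_filter] at hl ⊢
      refine ⟨hl.2, by simp [up], ?_⟩
      rw [CNT_dn_up]
      exact hl.1
    · intro a _ b _ hab
      rw [← CNT_dn_up a, ← CNT_dn_up b, hab]
    · intro b hb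
      rw [Finset.mem_filter] at hb
      refine ⟨CNT_dn b, ?_, CNT_up_dn b hb.2.1⟩
      rw [Finset.mem_filter, CNT_up_dn b hb.2.1]
      exact ⟨hb.2.2, hb.1⟩
  omega

/-- the up operator -/
noncomputable def CNT_U : (St →₀ ℤ) →ₗ[ℤ] (St →₀ ℤ) :=
  Finsupp.linearCombination ℤ fun S => ∑ l ∈ addable 1 S, Finsupp.single (move 1 S l) 1

/-- the down operator -/
noncomputable def CNT_D : (St →₀ ℤ) →ₗ[ℤ] (St →₀ ℤ) :=
  Finsupp.linearCombination ℤ fun S => ∑ l ∈ CNT_rem S, Finsupp.single (CNT_unm S l) 1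

/-- the scalar product -/
noncomputable def CNT_B (g : St →₀ ℤ) : (St →₀ ℤ) →ₗ[ℤ] ℤ :=
  Finsupp.linearCombination ℤ fun S => g S

theorem CNT_U_single (S : St) : CNT_U (Finsupp.single S 1) =
    ∑ l ∈ addable 1 S, Finsupp.single (move 1 S l) 1 := by
  unfold CNT_U
  rw [Finsupp.linearCombination_single, one_smul]

theorem CNT_D_single (S : St) : CNT_D (Finsupp.single S 1) =
    ∑ l ∈ CNT_rem S, Finsupp.single (CNT_unm S l) 1 := by
  unfold CNT_D
  rw [Finsupp.linearCombination_single, one_smul]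

theorem CNT_comm (S : St) : CNT_D (CNT_U (Finsupp.single S 1)) =
    CNT_U (CNT_D (Finsupp.single S 1)) + (CNT_z S : ℤ) • Finsupp.single S (1 : ℤ) := by
  have h1 : CNT_D (CNT_U (Finsupp.single S 1)) = ∑ l ∈ addable 1 S, (Finsupp.single S (1 : ℤ) +
      ∑ l' ∈ (CNT_rem S).filter (fun l' => l' ≠ l ∧ CNT_dn l' ≠ up 1 l),
        Finsupp.single (CNT_unm (move 1 S l) l') (1 : ℤ)) := by
    rw [CNT_U_single, map_sum]
    refine Finset.sum_congr rfl fun l hl => ?_
    rw [CNT_D_single, CNT_rem_move S l hl, Finset.sum_insert, CNT_unm_move_same S l hl]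
    intro h
    rw [Finset.mem_filter, CNT_mem_rem] at h
    exact (CNT_mem_add.1 hl).2 h.1.1
  have h2 : CNT_U (CNT_D (Finsupp.single S 1)) = ∑ l' ∈ CNT_rem S, (Finsupp.single S (1 : ℤ) +
      ∑ l ∈ (addable 1 S).filter (fun l => l' ≠ l ∧ CNT_dn l' ≠ up 1 l),
        Finsupp.single (move 1 (CNT_unm S l') l) (1 : ℤ)) := by
    rw [CNT_D_single, map_sum]
    refine Finset.sum_congr rfl fun l hl => ?_
    rw [CNT_U_single, CNT_add_unm S l hl, Finset.sum_insert, CNT_move_unm_same S l hl]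
    intro h
    rw [Finset.mem_filter, CNT_mem_add] at h
    exact (CNT_mem_rem.1 hl).2.2 h.1.1
  have h3 : ∑ l ∈ addable 1 S,
      ∑ l' ∈ (CNT_rem S).filter (fun l' => l' ≠ l ∧ CNT_dn l' ≠ up 1 l),
        Finsupp.single (CNT_unm (move 1 S l) l') (1 : ℤ) =
      ∑ l' ∈ CNT_rem S, ∑ l ∈ (addable 1 S).filter (fun l => l' ≠ l ∧ CNT_dn l' ≠ up 1 l),
        Finsupp.single (move 1 (CNT_unm S l') l) (1 : ℤ) := by
    simp_rw [Finset.sum_filter]
    rw [Finset.sum_comm]
    refine Finset.sum_congr rfl fun l' hl' => Finset.sum_congr rfl fun l hl => ?_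
    rw [CNT_comm_states S l l' hl hl']
  rw [h1, h2, Finset.sum_add_distrib, Finset.sum_add_distrib, h3, Finset.sum_const,
    Finset.sum_const, CNT_card, add_smul, natCast_zsmul]
  abel

theorem CNT_adj_single (S S' : St) : CNT_B (Finsupp.single S' 1) (CNT_U (Finsupp.single S 1)) =
    CNT_B (CNT_D (Finsupp.single S' 1)) (Finsupp.single S 1) := by
  have hB : ∀ (g : St →₀ ℤ) (S : St), CNT_B g (Finsupp.single S 1) = g S := by
    intro g S
    unfold CNT_B
    rw [Finsupp.linearCombination_single, one_smul]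
  rw [hB, CNT_U_single, CNT_D_single, map_sum]
  simp_rw [hB]
  rw [Finsupp.finsetSum_apply]
  simp_rw [Finsupp.single_apply]
  rw [← Finset.sum_filter, ← Finset.sum_filter, Finset.sum_const, Finset.sum_const]
  congr 1
  refine Finset.card_bij (fun l _ => up 1 l) ?_ ?_ ?_
  · intro l hl
    rw [Finset.mem_filter] at hl ⊢
    obtain ⟨h1, h2⟩ := hl
    rw [h2]
    refine ⟨?_, CNT_unm_move_same S l h1⟩
    rw [CNT_rem_move S l h1]
    exact Finset.mem_insert_self _ _
  · intro a _ b _ hab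
    rw [← CNT_dn_up a, ← CNT_dn_up b, hab]
  · intro b hb
    rw [Finset.mem_filter] at hb
    obtain ⟨h1, h2⟩ := hb
    refine ⟨CNT_dn b, ?_, CNT_up_dn b (CNT_mem_rem.1 h1).2.1⟩
    rw [Finset.mem_filter, ← h2]
    refine ⟨?_, (CNT_move_unm_same S' b h1).symm⟩
    rw [CNT_add_unm S' b h1]
    exact Finset.mem_insert_self _ _

theorem CNT_B_comm (f g : St →₀ ℤ) : CNT_B g f = CNT_B f g := by
  unfold CNT_B
  rw [Finsupp.linearCombination_apply, Finsupp.linearCombination_apply, Finsupp.sum, Finsupp.sum]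
  simp only [smul_eq_mul]
  have h1 : ∑ S ∈ f.support, f S * g S = ∑ S ∈ f.support ∪ g.support, f S * g S := by
    refine Finset.sum_subset Finset.subset_union_left fun S _ hS => ?_
    rw [Finsupp.notMem_support_iff.1 hS, zero_mul]
  have h2 : ∑ S ∈ g.support, g S * f S = ∑ S ∈ f.support ∪ g.support, g S * f S := by
    refine Finset.sum_subset Finset.subset_union_right fun S _ hS => ?_
    rw [Finsupp.notMem_support_iff.1 hS, zero_mul]
  rw [h1, h2]
  exact Finset.sum_congr rfl fun S _ => mul_comm _ _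

theorem CNT_adj (f g : St →₀ ℤ) : CNT_B g (CNT_U f) = CNT_B (CNT_D g) f := by
  have h1 : ∀ g : St →₀ ℤ, CNT_B g ∘ₗ CNT_U = CNT_B (CNT_D g) := by
    intro g
    refine Finsupp.lhom_ext fun S b => ?_
    have hb : Finsupp.single S b = b • Finsupp.single S (1 : ℤ) := by
      rw [Finsupp.smul_single, smul_eq_mul, mul_one]
    rw [hb, map_smul, map_smul]
    congr 1
    show CNT_B g (CNT_U (Finsupp.single S 1)) = CNT_B (CNT_D g) (Finsupp.single S 1)
    rw [CNT_B_comm, CNT_B_comm (Finsupp.single S 1)]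
    have h2 : CNT_B (CNT_U (Finsupp.single S 1)) = CNT_B (Finsupp.single S 1) ∘ₗ CNT_D := by
      refine Finsupp.lhom_ext fun S' b' => ?_
      have hb' : Finsupp.single S' b' = b' • Finsupp.single S' (1 : ℤ) := by
        rw [Finsupp.smul_single, smul_eq_mul, mul_one]
      rw [hb', map_smul, map_smul]
      congr 1
      show CNT_B (CNT_U (Finsupp.single S 1)) (Finsupp.single S' 1) =
        CNT_B (Finsupp.single S 1) (CNT_D (Finsupp.single S' 1))
      rw [CNT_B_comm, CNT_adj_single, CNT_B_comm]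
    exact congrArg (fun φ : (St →₀ ℤ) →ₗ[ℤ] ℤ => φ g) h2
  exact congrArg (fun φ : (St →₀ ℤ) →ₗ[ℤ] ℤ => φ f) (h1 g)

theorem CNT_paths (n : ℕ) (S S' : St) :
    ((CNT_U ^ n) (Finsupp.single S 1)) S' = ((paths n S S').card : ℤ) := by
  induction n generalizing S with
  | zero =>
    rw [pow_zero]
    show (Finsupp.single S (1 : ℤ)) S' = _
    unfold paths
    rw [Finsupp.single_apply]
    split_ifs <;> simp
  | succ n ih =>
    rw [pow_succ]
    show ((CNT_U ^ n) (CNT_U (Finsupp.single S 1))) S' = _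
    rw [CNT_U_single, map_sum, Finsupp.finsetSum_apply]
    simp_rw [ih]
    rw [paths, Finset.card_biUnion]
    · push_cast
      refine Finset.sum_congr rfl fun l _ => ?_
      rw [Finset.card_image_of_injective _ (List.cons_injective)]
    · intro a _ b _ hab
      show Disjoint (Finset.image (List.cons a) (paths n (move 1 S a) S'))
        (Finset.image (List.cons b) (paths n (move 1 S b) S'))
      rw [Finset.disjoint_left]
      intro w hw hw'
      rw [Finset.mem_image] at hw hw'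
      obtain ⟨u, _, hu⟩ := hw
      obtain ⟨u', _, hu'⟩ := hw'
      rw [← hu'] at hu
      exact hab (List.cons.inj hu).1

/-- the operator multiplying by the number of beads at the place `0` -/
noncomputable def CNT_Z : (St →₀ ℤ) →ₗ[ℤ] (St →₀ ℤ) :=
  Finsupp.linearCombination ℤ fun S => (CNT_z S : ℤ) • Finsupp.single S (1 : ℤ)

theorem CNT_comm_all (f : St →₀ ℤ) : CNT_D (CNT_U f) = CNT_U (CNT_D f) + CNT_Z f := by
  have h : CNT_D ∘ₗ CNT_U = CNT_U ∘ₗ CNT_D + CNT_Z := by
    refine Finsupp.lhom_ext fun S b => ?_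
    have hb : Finsupp.single S b = b • Finsupp.single S (1 : ℤ) := by
      rw [Finsupp.smul_single, smul_eq_mul, mul_one]
    rw [hb, map_smul, map_smul]
    congr 1
    show CNT_D (CNT_U (Finsupp.single S 1)) =
      CNT_U (CNT_D (Finsupp.single S 1)) + CNT_Z (Finsupp.single S 1)
    rw [CNT_comm]
    unfold CNT_Z
    rw [Finsupp.linearCombination_single, one_smul]
  exact congrArg (fun φ : (St →₀ ℤ) →ₗ[ℤ] (St →₀ ℤ) => φ f) h

/-- the states reached after `k` steps contain the places `j` with `j + k < m` -/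
theorem CNT_reach (m k : ℕ) (S : St) (hS : S ∈ ((CNT_U ^ k) (Finsupp.single (vac m) 1)).support) :
    ∀ c j, j + k < m → (c, j) ∈ S := by
  induction k generalizing S with
  | zero =>
    rw [pow_zero] at hS
    change S ∈ (Finsupp.single (vac m) (1 : ℤ)).support at hS
    have h1 := Finsupp.support_single_subset hS
    rw [Finset.mem_singleton] at h1
    intro c j hj
    rw [h1]
    unfold vac
    simp only [Finset.mem_product, Finset.mem_univ, Finset.mem_range, true_and]
    omega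
  | succ k ih =>
    rw [pow_succ'] at hS
    change S ∈ (CNT_U ((CNT_U ^ k) (Finsupp.single (vac m) 1))).support at hS
    set f := (CNT_U ^ k) (Finsupp.single (vac m) 1) with hf
    have h1 : CNT_U f = ∑ S' ∈ f.support, f S' •
        ∑ l ∈ addable 1 S', Finsupp.single (move 1 S' l) (1 : ℤ) := by
      unfold CNT_U
      rw [Finsupp.linearCombination_apply, Finsupp.sum]
    rw [h1, Finsupp.mem_support_iff, Finsupp.finsetSum_apply] at hS
    obtain ⟨S', hS', h2⟩ := Finset.exists_ne_zero_of_sum_ne_zero hS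
    rw [Finsupp.smul_apply, Finsupp.finsetSum_apply] at h2
    have h3 : ∑ l ∈ addable 1 S', (Finsupp.single (move 1 S' l) (1 : ℤ)) S ≠ 0 := by
      intro h
      rw [h, smul_zero] at h2
      exact h2 rfl
    obtain ⟨l, hl, h4⟩ := Finset.exists_ne_zero_of_sum_ne_zero h3
    rw [Finsupp.single_apply] at h4
    have h5 : move 1 S' l = S := by
      by_contra h
      rw [if_neg h] at h4
      exact h4 rfl
    rw [CNT_mem_add] at hl
    intro c j hj
    rw [← h5]
    unfold move
    rw [Finset.mem_insert, Finset.mem_erase]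
    right
    refine ⟨?_, ih S' hS' c j (by omega)⟩
    rintro rfl
    exact hl.2 (ih S' hS' c (j + 1) (by omega))

theorem CNT_z_two (m k : ℕ) (hk : k < m) (S : St) (hS : ∀ c j, j + k < m → (c, j) ∈ S) :
    CNT_z S = 2 := by
  unfold CNT_z
  have h : (S.filter fun l => l.2 = 0) = {((true, 0) : Lab), (false, 0)} := by
    ext ⟨c, j⟩
    simp only [Finset.mem_filter, Finset.mem_insert, Finset.mem_singleton, Prod.mk.injEq]
    constructor
    · rintro ⟨_, h⟩
      cases c <;> simp [h]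
    · rintro (⟨rfl, rfl⟩ | ⟨rfl, rfl⟩)
      · exact ⟨hS _ _ (by omega), rfl⟩
      · exact ⟨hS _ _ (by omega), rfl⟩
  rw [h]
  rfl

theorem CNT_Z_eq (m k : ℕ) (hk : k < m) :
    CNT_Z ((CNT_U ^ k) (Finsupp.single (vac m) 1)) =
      (2 : ℤ) • (CNT_U ^ k) (Finsupp.single (vac m) 1) := by
  set f := (CNT_U ^ k) (Finsupp.single (vac m) 1) with hf
  unfold CNT_Z
  rw [Finsupp.linearCombination_apply, Finsupp.sum]
  conv_rhs => rw [← Finsupp.sum_single f]
  rw [Finsupp.sum, Finset.smul_sum]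
  refine Finset.sum_congr rfl fun S hS => ?_
  rw [CNT_z_two m k hk S (CNT_reach m k S (hf ▸ hS)), Finsupp.smul_single, Finsupp.smul_single,
    Finsupp.smul_single]
  congr 1
  simp [mul_comm]

theorem CNT_D_vac (m : ℕ) : CNT_D (Finsupp.single (vac m) 1) = 0 := by
  rw [CNT_D_single]
  have h : CNT_rem (vac m) = ∅ := by
    rw [Finset.eq_empty_iff_forall_notMem]
    intro l hl
    rw [CNT_mem_rem] at hl
    obtain ⟨h1, h2, h3⟩ := hl
    apply h3
    unfold vac CNT_dn at *
    simp only [Finset.mem_product, Finset.mem_univ, Finset.mem_range, true_and] at h1 ⊢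
    omega
  rw [h, Finset.sum_empty]

theorem CNT_DU (m k : ℕ) (hk : k < m) :
    CNT_D ((CNT_U ^ (k + 1)) (Finsupp.single (vac m) 1)) =
      (2 * (k + 1) : ℤ) • (CNT_U ^ k) (Finsupp.single (vac m) 1) := by
  induction k with
  | zero =>
    rw [pow_succ']
    show CNT_D (CNT_U ((CNT_U ^ 0) (Finsupp.single (vac m) 1))) = _
    rw [CNT_comm_all, CNT_Z_eq m 0 hk, pow_zero]
    show CNT_U (CNT_D (Finsupp.single (vac m) 1)) + (2 : ℤ) • Finsupp.single (vac m) 1 = _
    rw [CNT_D_vac, map_zero, zero_add]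
    simp
  | succ k ih =>
    rw [pow_succ']
    show CNT_D (CNT_U ((CNT_U ^ (k + 1)) (Finsupp.single (vac m) 1))) = _
    rw [CNT_comm_all, CNT_Z_eq m (k + 1) hk, ih (by omega), map_smul]
    have h1 : CNT_U ((CNT_U ^ k) (Finsupp.single (vac m) 1)) =
        (CNT_U ^ (k + 1)) (Finsupp.single (vac m) 1) := by
      rw [pow_succ', Module.End.mul_apply]
    rw [h1, ← add_smul]
    congr 1

theorem CNT_norm (m n : ℕ) (hn : n ≤ m) :
    CNT_B ((CNT_U ^ n) (Finsupp.single (vac m) 1)) ((CNT_U ^ n) (Finsupp.single (vac m) 1)) =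
      2 ^ n * (n.factorial : ℤ) := by
  induction n with
  | zero =>
    rw [pow_zero]
    show CNT_B (Finsupp.single (vac m) 1) (Finsupp.single (vac m) 1) = _
    unfold CNT_B
    rw [Finsupp.linearCombination_single]
    simp
  | succ n ih =>
    have h1 : (CNT_U ^ (n + 1)) (Finsupp.single (vac m) 1) =
        CNT_U ((CNT_U ^ n) (Finsupp.single (vac m) 1)) := by
      rw [pow_succ', Module.End.mul_apply]
    have h2 : CNT_B ((CNT_U ^ (n + 1)) (Finsupp.single (vac m) 1))
        ((CNT_U ^ (n + 1)) (Finsupp.single (vac m) 1)) =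
        CNT_B ((CNT_U ^ (n + 1)) (Finsupp.single (vac m) 1))
          (CNT_U ((CNT_U ^ n) (Finsupp.single (vac m) 1))) := by
      conv_lhs => rw [h1]
      conv_rhs => rw [h1]
    rw [h2, CNT_adj, CNT_DU m n (by omega), CNT_B_comm, map_smul, ih (by omega),
      Nat.factorial_succ]
    push_cast
    rw [smul_eq_mul]
    ring

theorem CNT_ends (n : ℕ) (S S' : St) (h : (paths n S S').card ≠ 0) : S' ∈ ends n S := by
  induction n generalizing S with
  | zero =>
    unfold paths at h
    unfold ends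
    rw [Finset.mem_singleton]
    by_contra h1
    rw [if_neg (fun h2 => h1 h2.symm)] at h
    simp at h
  | succ n ih =>
    unfold paths at h
    unfold ends
    rw [Finset.card_ne_zero] at h
    obtain ⟨w, hw⟩ := h
    rw [Finset.mem_biUnion] at hw ⊢
    obtain ⟨l, hl, hw⟩ := hw
    rw [Finset.mem_image] at hw
    obtain ⟨u, hu, _⟩ := hw
    exact ⟨l, hl, ih _ (Finset.card_ne_zero_of_mem hu)⟩

/-- module CNT -/
theorem CNT : CNT_stmt := by
  intro n m hnm
  have h1 := CNT_norm m n hnm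
  set f := (CNT_U ^ n) (Finsupp.single (vac m) 1) with hf
  have h2 : CNT_B f f = ∑ S ∈ ends n (vac m), ((paths n (vac m) S).card : ℤ) ^ 2 := by
    unfold CNT_B
    rw [Finsupp.linearCombination_apply, Finsupp.sum]
    have h3 : ∀ S, f S = ((paths n (vac m) S).card : ℤ) := fun S => by
      rw [hf]
      exact CNT_paths n (vac m) S
    simp_rw [smul_eq_mul, h3, ← sq]
    refine Finset.sum_subset (fun S hS => ?_) fun S _ hS => ?_
    · apply CNT_ends
      rw [Finsupp.mem_support_iff, h3] at hS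
      exact_mod_cast hS
    · rw [Finsupp.notMem_support_iff, h3] at hS
      rw [hS]
      norm_num
  rw [h2] at h1
  exact_mod_cast h1

end Pool.Agent.helper27.PC
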