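import Pool.Agent.helper27.PC.Stmt

/-!
# PC project, module TW: `T_w` along a reduced word
-/

namespace Pool.Agent.helper27.PC

open Module Polynomial

/-- a word with natural indices as a word with indices in `Fin n` -/
theorem TW_word (n : ℕ) (l : List ℕ) (h : ∀ i ∈ l, i < n) :
    ∃ l' : List (Fin n), l'.length = l.length ∧ (l'.map (gen n)).prod = (l.map (g n)).prod := by
  induction l with
  | nil => exact ⟨[], rfl, rfl⟩
  | cons a l ih =>
    obtain ⟨l', h1, h2⟩ := ih fun i hi => h i (List.mem_cons_of_mem _ hi)
    have ha : a < n := h a List.mem_cons_self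
    refine ⟨⟨a, ha⟩ :: l', by simp [h1], ?_⟩
    rw [List.map_cons, List.prod_cons, List.map_cons, List.prod_cons, h2]
    unfold g
    rw [dif_pos ha]

theorem TW_len_le {n : ℕ} (l : List (Fin n)) : len ((l.map (gen n)).prod) ≤ l.length :=
  Nat.sInf_le ⟨l, rfl, rfl⟩

theorem TW_len_one (n : ℕ) : len (1 : W n) = 0 := Nat.le_zero.1 (TW_len_le (n := n) [])

/-- a shortest word -/
theorem TW_exists {n : ℕ} (w : W n) (h : ∃ l : List (Fin n), (l.map (gen n)).prod = w) :
    ∃ l : List (Fin n), l.length = len w ∧ (l.map (gen n)).prod = w := by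
  have h1 : ({k | ∃ l : List (Fin n), l.length = k ∧ (l.map (gen n)).prod = w}).Nonempty := by
    obtain ⟨l, hl⟩ := h
    exact ⟨l.length, l, rfl, hl⟩
  exact Nat.sInf_mem h1

/-- module TW -/
theorem TW : TW_stmt := by
  intro n H _ _ T hT
  have hone : T 1 = 1 := by
    have h1 : LinearMap.mulLeft A (T 1) = LinearMap.id := by
      refine T.ext fun w => ?_
      show T 1 * T w = T w
      rw [hT.mul 1 w (by rw [TW_len_one, one_mul, zero_add]), one_mul]
    have h2 := congrArg (fun φ : H →ₗ[A] H => φ 1) h1
    simpa using h2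
  refine ⟨hone, fun l => ?_⟩
  induction l with
  | nil =>
    intro _ _
    simpa using hone
  | cons a l ih =>
    intro hl hlen
    have hl' : ∀ i ∈ l, i < n := fun i hi => hl i (List.mem_cons_of_mem _ hi)
    have ha : a < n := hl a List.mem_cons_self
    rw [List.map_cons, List.prod_cons, List.length_cons] at hlen
    obtain ⟨m, hm1, hm2⟩ := TW_word n l hl'
    have hga : g n a = gen n ⟨a, ha⟩ := by unfold g; rw [dif_pos ha]
    -- the rest is reduced
    have hle : len ((l.map (g n)).prod) ≤ l.length := by
      rw [← hm2, ← hm1]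
      exact TW_len_le m
    obtain ⟨m0, hm3, hm4⟩ := TW_exists ((l.map (g n)).prod) ⟨m, hm2⟩
    have h1 : len (g n a * (l.map (g n)).prod) ≤ len ((l.map (g n)).prod) + 1 := by
      have h2 := TW_len_le (⟨a, ha⟩ :: m0 : List (Fin n))
      rw [List.map_cons, List.prod_cons, List.length_cons, hm3, hm4, ← hga] at h2
      exact h2
    have h2 : len ((l.map (g n)).prod) = l.length := by omega
    have h3 : len (g n a) = 1 := by
      have h4 : len (g n a) ≤ 1 := by
        have h5 := TW_len_le ([⟨a, ha⟩] : List (Fin n))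
        rw [List.map_cons, List.map_nil, List.prod_singleton, ← hga] at h5
        exact h5
      obtain ⟨m1, hm5, hm6⟩ := TW_exists (g n a) ⟨[⟨a, ha⟩], by
        rw [List.map_cons, List.map_nil, List.prod_singleton, hga]⟩
      by_contra h6
      have h7 : len (g n a) = 0 := by omega
      rw [h7] at hm5
      have h8 : m1 = [] := List.length_eq_zero_iff.1 hm5
      rw [h8] at hm6
      have h9 : g n a = 1 := by rw [← hm6]; rfl
      rw [h9, one_mul] at hlen
      omega
    rw [List.map_cons, List.prod_cons, List.map_cons, List.prod_cons, ← ih hl' h2]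
    exact (hT.mul _ _ (by omega)).symm

end Pool.Agent.helper27.PC
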